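import Pool.Agent.helper83.OD.Spec

/-!
# Project od:, module SPL: the splitting of `f * vvx ^ 16`
-/

set_option autoImplicit false

open Finset PowerSeries

noncomputable section

namespace Pool.Agent.OD

open Pool.Agent.EP

/-- A decomposition of the elements of `WW`. -/
theorem SPL_dec (hWM : WM_stmt) : ∀ f ∈ WW, ∃ f' f'' : KK, f = f' + f'' ∧
    (∀ M : ℤ, M % 24 = 13 → f''.coeff M = 0) ∧ (∀ M : ℤ, M % 24 ≠ 13 → f'.coeff M = 0) ∧
    ∃ g ∈ WW, ∃ c : ZMod 2, f' * vvx ^ 16 = g + c • vvx ^ 5 := by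
  obtain ⟨hco, hvv'⟩ := hWM
  have hvv : ww * vvx = 1 := hvv'
  intro f hf
  unfold WW at hf
  induction hf using Submodule.span_induction with
  | mem x hx =>
    obtain ⟨i, hi, rfl⟩ := hx
    by_cases h11 : i % 24 = 11
    · refine ⟨ww ^ i, 0, by rw [add_zero], fun M _ => rfl, fun M hM => ?_, ?_⟩
      · rw [hco, if_neg]
        rintro ⟨h1, h2⟩
        omega
      · by_cases h17 : 17 ≤ i
        · refine ⟨ww ^ (i - 16), Submodule.subset_span ⟨i - 16, by omega, rfl⟩, 0, ?_⟩
          have h6 : i = (i - 16) + 16 := by omega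
          have h7 : ww ^ i * vvx ^ 16 = ww ^ (i - 16) := by
            conv_lhs => rw [h6]
            rw [pow_add, mul_assoc, ← mul_pow, hvv, one_pow, mul_one]
          rw [h7, zero_smul, add_zero]
        · have h6 : i = 11 := by omega
          refine ⟨0, Submodule.zero_mem _, 1, ?_⟩
          have h7 : ww ^ i * vvx ^ 16 = vvx ^ 5 := by
            rw [h6]
            have h8 : ww ^ 11 * vvx ^ 16 = (ww * vvx) ^ 11 * vvx ^ 5 := by ring
            rw [h8, hvv, one_pow, one_mul]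
          rw [h7, one_smul, zero_add]
    · refine ⟨0, ww ^ i, by rw [zero_add], fun M hM => ?_, fun M _ => rfl, 0,
        Submodule.zero_mem _, 0, ?_⟩
      · rw [hco, if_neg]
        rintro ⟨h1, h2⟩
        omega
      · rw [zero_mul, zero_smul, add_zero]
  | zero =>
    refine ⟨0, 0, by rw [add_zero], fun M _ => rfl, fun M _ => rfl, 0,
      Submodule.zero_mem _, 0, ?_⟩
    rw [zero_mul, zero_smul, add_zero]
  | add x y _ _ hx hy =>
    obtain ⟨x', x'', hx1, hx2, hx3, gx, hgx, cx, hx4⟩ := hx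
    obtain ⟨y', y'', hy1, hy2, hy3, gy, hgy, cy, hy4⟩ := hy
    refine ⟨x' + y', x'' + y'', by rw [hx1, hy1]; ring, fun M hM => ?_, fun M hM => ?_, gx + gy,
      Submodule.add_mem _ hgx hgy, cx + cy, ?_⟩
    · rw [HahnSeries.coeff_add, hx2 M hM, hy2 M hM, add_zero]
    · rw [HahnSeries.coeff_add, hx3 M hM, hy3 M hM, add_zero]
    · rw [add_mul, hx4, hy4, add_smul]
      abel
  | smul c x _ hx =>
    obtain ⟨x', x'', hx1, hx2, hx3, gx, hgx, cx, hx4⟩ := hx
    refine ⟨c • x', c • x'', by rw [hx1, smul_add], fun M hM => ?_, fun M hM => ?_, c • gx,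
      Submodule.smul_mem _ _ hgx, c * cx, ?_⟩
    · rw [HahnSeries.coeff_smul, hx2 M hM, smul_zero]
    · rw [HahnSeries.coeff_smul, hx3 M hM, smul_zero]
    · rw [smul_mul_assoc, hx4, smul_add, mul_smul]

theorem SPL (hWM : WM_stmt) : SPL_stmt := by
  intro f hf hM
  obtain ⟨f', f'', h1, h2, h3, g, hg, c, h4⟩ := SPL_dec hWM f hf
  have h0 : f'' = 0 := by
    ext M
    by_cases h13 : M % 24 = 13
    · exact h2 M h13
    · have h5 : f.coeff M = 0 := by
        by_contra h
        exact h13 (hM M h)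
      rw [h1, HahnSeries.coeff_add, h3 M h13, zero_add] at h5
      exact h5
  refine ⟨g, hg, c, ?_⟩
  rw [h1, h0, add_zero, h4]

end Pool.Agent.OD
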